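import Mathlib
import Pool.Agent.H255R3.STC.Chordal

/-!
# MP_77abd0_co, Q1: clique roots of `l`-connected `K_{l+3}`-free chordal graphs

All roots of the clique polynomial of an `l`-connected `K_{l+3}`-free chordal graph are real.
-/

set_option autoImplicit false

open Finset Polynomial

namespace Pool.Agent.Results.MP_77abd0_co.RealCliqueRoots

/-- `G` is chordal: it has no induced cycle of length at least four. -/
def IsChordal {V : Type} (G : SimpleGraph V) : Prop :=
  ∀ n : ℕ, 4 ≤ n → IsEmpty (SimpleGraph.cycleGraph n ↪g G)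

/-- `G` is `l`-connected: it has at least `l + 1` vertices and stays connected after deleting any
set of fewer than `l` vertices. -/
def IsLConnected {V : Type} [Fintype V] (l : ℕ) (G : SimpleGraph V) : Prop :=
  l + 1 ≤ Fintype.card V ∧ ∀ D : Finset V, D.card < l → (G.induce {v | v ∉ D}).Connected

/-- The clique polynomial `∑ c_k x^k`, where `c_k` is the number of `k`-cliques of `G` (so
`c_0 = 1`). The sum is over all `k ≤ |V|`; the terms with `k` larger than the clique number
vanish. -/
noncomputable def cliquePoly {V : Type} [Fintype V] (G : SimpleGraph V) : ℤ[X] := by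
  classical
  exact ∑ k ∈ range (Fintype.card V + 1), ((G.cliqueFinset k).card : ℤ[X]) * X ^ k

section

variable {V : Type} [Fintype V] [DecidableEq V] (G : SimpleGraph V)

open Classical in
/-- the clique polynomial of the subgraph induced by `s` -/
noncomputable def P (s : Finset V) : ℤ[X] :=
  ∑ t ∈ s.powerset.filter (fun t : Finset V => G.IsClique (t : Set V)), X ^ t.card

open Classical in
lemma cliquePoly_eq : cliquePoly G = P G univ := by
  unfold cliquePoly P
  have h := Finset.sum_fiberwise_of_maps_to (s := (univ : Finset V).powerset.filter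
    (fun t : Finset V => G.IsClique (t : Set V))) (t := range (Fintype.card V + 1)) (g := Finset.card)
    (fun t _ => by
      rw [mem_range]
      exact Nat.lt_succ_of_le (Finset.card_le_univ t)) (fun t => (X : ℤ[X]) ^ t.card)
  rw [← h]
  apply Finset.sum_congr rfl
  intro k _
  have h2 : ∀ t ∈ ((univ : Finset V).powerset.filter
      (fun t : Finset V => G.IsClique (t : Set V))).filter (fun t => t.card = k),
      (X : ℤ[X]) ^ t.card = X ^ k := by
    intro t ht
    rw [(Finset.mem_filter.1 ht).2]
  rw [Finset.sum_congr rfl h2, Finset.sum_const, nsmul_eq_mul]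
  congr 3
  ext t
  simp only [SimpleGraph.mem_cliqueFinset_iff, Finset.mem_filter, Finset.mem_powerset,
    Finset.subset_univ, true_and]
  exact ⟨fun h => ⟨h.1, h.2⟩, fun h => ⟨h.1, h.2⟩⟩

variable {G}

/-- `z` is simplicial in `s`. -/
def Simp (G : SimpleGraph V) (s : Finset V) (z : V) : Prop :=
  ∀ a ∈ s, ∀ b ∈ s, G.Adj z a → G.Adj z b → a ≠ b → G.Adj a b

open Classical in
lemma P_step {s : Finset V} {z : V} (hz : z ∈ s) (hs : Simp G s z) :
    P G s = P G (s.erase z) + X * (1 + X) ^ (s.filter (fun a => G.Adj z a)).card := by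
  set N := s.filter (fun a => G.Adj z a) with hN
  have hzN : z ∉ N := by simp [hN]
  have hNs : ∀ a ∈ N, a ∈ s ∧ G.Adj z a := fun a ha => by simpa [hN] using ha
  have h1 : s.powerset.filter (fun t : Finset V => G.IsClique (t : Set V)) =
      (s.erase z).powerset.filter (fun t : Finset V => G.IsClique (t : Set V)) ∪
        N.powerset.image (insert z) := by
    ext t
    simp only [mem_filter, mem_powerset, mem_union, mem_image]
    constructor
    · rintro ⟨hts, htc⟩
      by_cases hzt : z ∈ t
      · right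
        refine ⟨t.erase z, ?_, Finset.insert_erase hzt⟩
        intro a ha
        rw [Finset.mem_erase] at ha
        rw [hN, Finset.mem_filter]
        exact ⟨hts ha.2, htc hzt ha.2 (Ne.symm ha.1)⟩
      · left
        exact ⟨fun a ha => Finset.mem_erase.2 ⟨fun h => hzt (h ▸ ha), hts ha⟩, htc⟩
    · rintro (⟨h1, h2⟩ | ⟨u, hu, rfl⟩)
      · exact ⟨h1.trans (Finset.erase_subset _ _), h2⟩
      · refine ⟨?_, ?_⟩
        · intro a ha
          rcases Finset.mem_insert.1 ha with rfl | ha
          · exact hz
          · exact (hNs a (hu ha)).1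
        · intro a ha b hb hab
          simp only [Finset.coe_insert, Set.mem_insert_iff, Finset.mem_coe] at ha hb
          rcases ha with rfl | ha <;> rcases hb with rfl | hb
          · exact absurd rfl hab
          · exact (hNs b (hu hb)).2
          · exact (hNs a (hu ha)).2.symm
          · exact hs a (hNs a (hu ha)).1 b (hNs b (hu hb)).1 (hNs a (hu ha)).2
              (hNs b (hu hb)).2 hab
  have hdisj : Disjoint ((s.erase z).powerset.filter (fun t : Finset V => G.IsClique (t : Set V)))
      (N.powerset.image (insert z)) := by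
    rw [Finset.disjoint_left]
    intro t ht ht'
    obtain ⟨u, -, rfl⟩ := Finset.mem_image.1 ht'
    have := (Finset.mem_powerset.1 (Finset.mem_filter.1 ht).1) (Finset.mem_insert_self z u)
    exact absurd rfl (Finset.mem_erase.1 this).1
  unfold P
  rw [h1, Finset.sum_union hdisj]
  congr 1
  rw [Finset.sum_image]
  · have h2 := Finset.sum_pow_mul_eq_add_pow (X : ℤ[X]) 1 N
    rw [add_comm 1 (X : ℤ[X]), ← h2, Finset.mul_sum]
    apply Finset.sum_congr rfl
    intro t ht
    have hzt : z ∉ t := fun h => hzN (Finset.mem_powerset.1 ht h)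
    rw [Finset.card_insert_of_notMem hzt, one_pow, mul_one, pow_succ]
    ring
  · intro t ht u hu htu
    have hzt : z ∉ t := fun h => hzN (Finset.mem_powerset.1 (Finset.mem_coe.1 ht) h)
    have hzu : z ∉ u := fun h => hzN (Finset.mem_powerset.1 (Finset.mem_coe.1 hu) h)
    rw [← Finset.erase_insert hzt, ← Finset.erase_insert hzu]
    exact congrArg (fun x => Finset.erase x z) htu

/-- `x` and `y` are joined by a walk inside `A`. -/
def Conn (G : SimpleGraph V) (A : Set V) (x y : V) : Prop :=
  Relation.ReflTransGen (fun a b => G.Adj a b ∧ a ∈ A ∧ b ∈ A) x y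

/-- `l`-connectivity of the subgraph induced by `s`, in terms of `Conn`. -/
def LC (G : SimpleGraph V) (l : ℕ) (s : Finset V) : Prop :=
  l + 1 ≤ s.card ∧ ∀ D : Finset V, D.card < l → ∀ x ∈ s, x ∉ D → ∀ y ∈ s, y ∉ D →
    Conn G {v | v ∈ s ∧ v ∉ D} x y

lemma conn_erase {A : Set V} {z : V}
    (hs : ∀ a ∈ A, ∀ b ∈ A, G.Adj z a → G.Adj z b → a ≠ b → G.Adj a b) {x y : V} (hx : x ≠ z)
    (hxA : x ∈ A) (h : Conn G A x y) :
    (y ≠ z → Conn G {v | v ∈ A ∧ v ≠ z} x y) ∧
    (y = z → ∀ u ∈ A, G.Adj z u → Conn G {v | v ∈ A ∧ v ≠ z} x u) := by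
  unfold Conn at h
  induction h with
  | refl => exact ⟨fun _ => Relation.ReflTransGen.refl, fun h => absurd h hx⟩
  | @tail b c _ hbc ih =>
    obtain ⟨hadj, hb, hc⟩ := hbc
    by_cases hbz : b = z
    · subst hbz
      refine ⟨fun _ => ih.2 rfl c hc hadj, fun hcz => ?_⟩
      subst hcz
      exact absurd hadj (G.loopless.irrefl _)
    · have ih1 := ih.1 hbz
      refine ⟨fun hcz => Relation.ReflTransGen.tail ih1 ⟨hadj, ⟨hb, hbz⟩, ⟨hc, hcz⟩⟩, ?_⟩
      rintro rfl u hu hzu
      by_cases hub : u = b
      · rw [hub]; exact ih1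
      · exact Relation.ReflTransGen.tail ih1
          ⟨hs b hb u hu hadj.symm hzu (Ne.symm hub), ⟨hb, hbz⟩, ⟨hu, hzu.ne.symm⟩⟩

lemma lc_erase {l : ℕ} {s : Finset V} {z : V} (hs : Simp G s z) (h : LC G l s)
    (hcard : l + 1 ≤ (s.erase z).card) : LC G l (s.erase z) := by
  refine ⟨hcard, fun D hD x hx hxD y hy hyD => ?_⟩
  rw [Finset.mem_erase] at hx hy
  have h1 := h.2 D hD x hx.2 hxD y hy.2 hyD
  have h2 := (conn_erase (A := {v | v ∈ s ∧ v ∉ D}) (z := z)
    (fun a ha b hb => hs a ha.1 b hb.1) hx.1 ⟨hx.2, hxD⟩ h1).1 hy.1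
  unfold Conn at h2 ⊢
  clear h1 hyD hy
  induction h2 with
  | refl => exact Relation.ReflTransGen.refl
  | @tail b c _ hbc ih2 =>
    obtain ⟨h3, h4, h5⟩ := hbc
    exact Relation.ReflTransGen.tail ih2 ⟨h3, ⟨Finset.mem_erase.2 ⟨h4.2, h4.1.1⟩, h4.1.2⟩,
      ⟨Finset.mem_erase.2 ⟨h5.2, h5.1.1⟩, h5.1.2⟩⟩

lemma P_clique {s : Finset V} (hs : G.IsClique (s : Set V)) : P G s = (1 + X) ^ s.card := by
  classical
  unfold P
  have h2 := Finset.sum_pow_mul_eq_add_pow (X : ℤ[X]) 1 s
  rw [add_comm 1 (X : ℤ[X]), ← h2]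
  rw [Finset.filter_true_of_mem]
  · apply Finset.sum_congr rfl
    intro t _
    rw [one_pow, mul_one]
  · intro t ht
    exact hs.subset (by exact_mod_cast Finset.mem_powerset.1 ht)

lemma main_aux (hG : IsChordal G) (l : ℕ) : ∀ (n : ℕ) (s : Finset V), s.card = n → LC G l s →
    (∀ t ⊆ s, G.IsClique (t : Set V) → t.card ≤ l + 2) →
    ∃ a b : ℕ, 1 ≤ a ∧
      P G s = (1 + X) ^ l * (1 + ((a + b : ℕ) : ℤ[X]) * X + (b : ℤ[X]) * X ^ 2) := by
  classical
  intro n
  induction n with
  | zero =>
    intro s hs h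
    have := h.1
    omega
  | succ n ih =>
    intro s hs h hcl
    by_cases hclique : G.IsClique (s : Set V)
    · have h1 := hcl s subset_rfl hclique
      have h2 := h.1
      rw [P_clique hclique]
      rcases Nat.lt_or_ge s.card (l + 2) with h3 | h3
      · refine ⟨1, 0, le_rfl, ?_⟩
        have : s.card = l + 1 := by omega
        rw [this, pow_succ]
        push_cast
        ring
      · refine ⟨1, 1, le_rfl, ?_⟩
        have : s.card = l + 2 := by omega
        rw [this, pow_add]
        push_cast
        ring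
    · have hex : ∃ v ∈ s, ∃ w ∈ s, w ≠ v ∧ ¬ G.Adj v w := by
        by_contra hcon
        push Not at hcon
        exact hclique fun a ha b hb hab => hcon a ha b hb (Ne.symm hab)
      obtain ⟨v, hv, w, hw, hwv, hvw⟩ := hex
      obtain ⟨z, hz, hzv, hvz, hsimp⟩ :=
        Pool.Agent.H255R3.STC.exists_simplicial hG s.card s le_rfl v hv w hw hwv hvw
      have hS : Simp G s z := hsimp
      set N := s.filter (fun a => G.Adj z a) with hN
      have hNmem : ∀ a, a ∈ N ↔ a ∈ s ∧ G.Adj z a := fun a => by simp [hN]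
      have hzN : z ∉ N := by simp [hN]
      -- lower bound
      have hlow : l ≤ N.card := by
        by_contra hlt
        push Not at hlt
        have hvN : v ∉ N := by
          rw [hNmem]
          exact fun h => hvz h.2.symm
        have hc := h.2 N hlt z hz hzN v hv hvN
        unfold Conn at hc
        rcases Relation.ReflTransGen.cases_head hc with h1 | ⟨c, hc1, -⟩
        · exact hzv h1
        · exact hc1.2.2.2 ((hNmem c).2 ⟨hc1.2.2.1, hc1.1⟩)
      have hup : N.card ≤ l + 1 := by
        have h1 : (insert z N).card ≤ l + 2 := by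
          apply hcl
          · intro a ha
            rcases Finset.mem_insert.1 ha with rfl | ha
            · exact hz
            · exact ((hNmem a).1 ha).1
          · intro a ha b hb hab
            simp only [Finset.coe_insert, Set.mem_insert_iff, Finset.mem_coe] at ha hb
            rcases ha with rfl | ha <;> rcases hb with rfl | hb
            · exact absurd rfl hab
            · exact ((hNmem b).1 hb).2
            · exact ((hNmem a).1 ha).2.symm
            · exact hsimp a ((hNmem a).1 ha).1 b ((hNmem b).1 hb).1 ((hNmem a).1 ha).2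
                ((hNmem b).1 hb).2 hab
        rw [Finset.card_insert_of_notMem hzN] at h1
        omega
      have hcard : l + 1 ≤ (s.erase z).card := by
        have h1 : insert v N ⊆ s.erase z := by
          intro a ha
          rw [Finset.mem_erase]
          rcases Finset.mem_insert.1 ha with rfl | ha
          · exact ⟨Ne.symm hzv, hv⟩
          · exact ⟨((hNmem a).1 ha).2.ne.symm, ((hNmem a).1 ha).1⟩
        have h2 := Finset.card_le_card h1
        rw [Finset.card_insert_of_notMem (by rw [hNmem]; exact fun h => hvz h.2.symm)] at h2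
        omega
      obtain ⟨a, b, ha, hP⟩ := ih (s.erase z) (by rw [Finset.card_erase_of_mem hz]; omega)
        (lc_erase hS h hcard) (fun t ht => hcl t (ht.trans (Finset.erase_subset _ _)))
      rw [P_step hz hS, hP]
      rcases Nat.lt_or_ge N.card (l + 1) with h3 | h3
      · refine ⟨a + 1, b, by omega, ?_⟩
        have : (s.filter (fun a => G.Adj z a)).card = l := by
          rw [← hN]; omega
        rw [this]
        push_cast
        ring
      · refine ⟨a, b + 1, ha, ?_⟩
        have : (s.filter (fun a => G.Adj z a)).card = l + 1 := by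
          rw [← hN]; omega
        rw [this, pow_succ]
        push_cast
        ring

end

/-- A real quadratic `1 + (a + b) z + b z ^ 2` with naturals `a ≥ 1`, `b` has only real roots. -/
lemma quad_real (a b : ℕ) (ha : 1 ≤ a) (z : ℂ)
    (hz : 1 + ((a + b : ℕ) : ℂ) * z + (b : ℂ) * z ^ 2 = 0) : z.im = 0 := by
  by_contra him
  have h1 := congrArg Complex.im hz
  have h2 := congrArg Complex.re hz
  simp only [Complex.add_im, Complex.one_im, Complex.mul_im, Complex.natCast_re,
    Complex.natCast_im, zero_mul, add_zero, zero_add, Complex.zero_im, pow_two, Complex.mul_re,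
    Complex.add_re, Complex.one_re, sub_zero, Complex.zero_re] at h1 h2
  have h3 : ((a + b : ℕ) : ℝ) + 2 * (b : ℝ) * z.re = 0 := by
    have : z.im * (((a + b : ℕ) : ℝ) + 2 * (b : ℝ) * z.re) = 0 := by linarith
    rcases mul_eq_zero.1 this with h | h
    · exact absurd h him
    · exact h
  push_cast at h2 h3
  have ha' : (1 : ℝ) ≤ a := by exact_mod_cast ha
  have hb' : (0 : ℝ) ≤ b := by positivity
  have him2 : 0 < z.im * z.im := by
    rcases lt_or_gt_of_ne him with h | h
    · exact mul_pos_of_neg_of_neg h h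
    · exact mul_pos h h
  have hb0 : 0 < (b : ℝ) := by
    rcases hb'.lt_or_eq with h | h
    · exact h
    · rw [← h] at h3
      linarith
  -- `b ^ 2 |z|^2 = b` and `2 b re z = - (a + b)`
  have h4 : ((b : ℝ) * z.re) * ((b : ℝ) * z.re) + (b : ℝ) ^ 2 * (z.im * z.im) = b := by
    have h5 : (b : ℝ) * z.re = -(((a : ℝ) + b) / 2) := by linarith
    have h6 : 1 + ((a : ℝ) + b) * z.re + b * (z.re * z.re - z.im * z.im) = 0 := by linarith
    have h7 : (b : ℝ) * (1 + ((a : ℝ) + b) * z.re + b * (z.re * z.re - z.im * z.im)) = 0 := by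
      rw [h6, mul_zero]
    nlinarith [h7, h5]
  have h5 : (b : ℝ) * z.re = -(((a : ℝ) + b) / 2) := by linarith
  rw [h5] at h4
  have h8 : 0 < (b : ℝ) ^ 2 * (z.im * z.im) := by positivity
  nlinarith [sq_nonneg ((b : ℝ) - 1), sq_nonneg ((a : ℝ) - 1)]

/-- For every `l ≥ 1` and every `l`-connected chordal `K_{l+3}`-free graph `G`, all complex roots
of the clique polynomial of `G` are real; in fact there are integers `a ≥ 1` and `b ≥ 0` with
`C(G, x) = (1 + x)^l (1 + (a + b) x + b x^2)`. -/
theorem result : ∀ l : ℕ, 1 ≤ l → ∀ (V : Type) [Fintype V] (G : SimpleGraph V),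
    IsChordal G → IsLConnected l G → G.CliqueFree (l + 3) →
    (∀ z : ℂ, aeval z (cliquePoly G) = 0 → z.im = 0) ∧
    ∃ a b : ℕ, 1 ≤ a ∧ cliquePoly G =
      (1 + X) ^ l * (1 + ((a + b : ℕ) : ℤ[X]) * X + (b : ℤ[X]) * X ^ 2) := by
  classical
  intro l hl V _ G hG hconn hfree
  have hLC : LC G l univ := by
    refine ⟨by rw [Finset.card_univ]; exact hconn.1, fun D hD x _ hx y _ hy => ?_⟩
    obtain ⟨p⟩ := (hconn.2 D hD).preconnected ⟨x, hx⟩ ⟨y, hy⟩
    have key : ∀ (x y : {v | v ∉ D}), (G.induce {v | v ∉ D}).Walk x y →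
        Conn G {v | v ∈ (univ : Finset V) ∧ v ∉ D} x.1 y.1 := by
      intro x y p
      induction p with
      | nil => exact Relation.ReflTransGen.refl
      | @cons u v w h q ih =>
        exact Relation.ReflTransGen.head ⟨h, ⟨mem_univ _, u.2⟩, ⟨mem_univ _, v.2⟩⟩ ih
    exact key ⟨x, hx⟩ ⟨y, hy⟩ p
  obtain ⟨a, b, ha, hP⟩ := main_aux hG l _ univ rfl hLC (by
    intro t _ ht
    by_contra hlt
    push Not at hlt
    obtain ⟨u, hut, hu⟩ := Finset.exists_subset_card_eq (n := l + 3) (s := t) (by omega)
    exact hfree u ⟨ht.subset (by exact_mod_cast hut), hu⟩)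
  rw [← cliquePoly_eq] at hP
  refine ⟨?_, a, b, ha, hP⟩
  intro z hz
  rw [hP] at hz
  simp only [map_mul, map_pow, map_add, map_one, aeval_X, map_natCast] at hz
  rcases mul_eq_zero.1 hz with h | h
  · have h1 : 1 + z = 0 := by
      exact pow_eq_zero_iff (by omega) |>.1 h
    have h2 : z = -1 := by linear_combination h1
    rw [h2]
    simp
  · exact quad_real a b ha z h

end Pool.Agent.Results.MP_77abd0_co.RealCliqueRoots
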